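import Pool.Agent.Lib.H8.Gen

/-!
The product of NON and LLPO is Weihrauch reducible to Ramsey's theorem for pairs.
-/

namespace Pool.Agent.Results.MP_743c94_lc.Yes

open Pool.Agent.Lib.H8 Arith CList Wei Qm Kc Gen Classical
open Filter hiding join

/-- Points of Cantor space. -/
def Bin (p : ℕ → ℕ) : Prop := ∀ n, p n ≤ 1

/-- Given `p`, find `q` not computable relative to `p`. -/
def NON : Prob := fun p => {q | Bin p ∧ Bin q ∧ ¬ ∃ e, Out e p q}

/-- Given `p` with at most one `1`, find `i` (the first output bit) with `p (2 n + i) = 0`. -/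
def LLPO : Prob := fun p =>
  {r | Bin p ∧ (∀ m n, p m = 1 → p n = 1 → m = n) ∧ Bin r ∧ ∀ n, p (2 * n + r 0) = 0}

/-- Given a colouring of pairs `x < y`, find an infinite homogeneous set. -/
def RT : Prob := fun c => {q | Bin c ∧ Bin q ∧ {x | q x = 1}.Infinite ∧
  ∃ j, ∀ x y, x < y → q x = 1 → q y = 1 → c (Nat.pair x y) = j}

/-- The product of problems. -/
def prod (f g : Prob) : Prob := fun p => {r | ev r ∈ f (ev p) ∧ od r ∈ g (od p)}

lemma ramsey {c : ℕ → ℕ} (h : Bin c) : (RT c).Nonempty := by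
  have k : ∀ f : ℕ → ℕ, Bin f → ∃ j ≤ 1, ∀ᶠ x in hyperfilter ℕ, f x = j := fun f h =>
    ((hyperfilter ℕ).em (f · = 0)).elim (fun a => ⟨0, by simp, a⟩)
      fun a => ⟨1, by simp, a.mono fun x b => by have := h x; omega⟩
  choose l l1 l2 using fun x => k (fun y => c (Nat.pair x y)) fun _ => h _
  obtain ⟨j, -, a⟩ := k l l1
  obtain ⟨f, -, b⟩ := exists_seq_of_forall_finset_exists (l · = j)
    (fun x y => x < y ∧ c (Nat.pair x y) = j) fun s t => (a.and ((eventually_all_finset s).2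
      fun x u => (((eventually_gt_atTop x).filter_mono Nat.hyperfilter_le_atTop).and (t x u ▸ l2 x)))).exists
  have m : StrictMono f := fun x y u => (b x y u).1
  refine ⟨fun x => if x ∈ Set.range f then 1 else 0, h, fun x => by dsimp only; split_ifs <;> simp,
    (Set.infinite_range_of_injective m.injective).mono fun x u => if_pos u, j, fun x y u v w => ?_⟩
  simp only [ite_eq_left_iff, zero_ne_one, imp_false, not_not] at v w
  obtain ⟨x, rfl⟩ := v
  obtain ⟨y, rfl⟩ := w
  exact (b x y (m.lt_iff_lt.1 u)).2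

lemma two (D : ℕ → Finset ℕ) (h : ∀ e, 2 * e + 2 ≤ (D e).card) (k : ℕ) :
    ∃ (g : ℕ → Bool) (U : Finset ℕ), U.card ≤ 2 * k ∧
      ∀ e < k, ∀ v, ∃ a ∈ D e, a ∈ U ∧ g a = v := by
  induction k with
  | zero => exact ⟨fun _ => true, ∅, by simp, by simp⟩
  | succ k ih =>
    obtain ⟨g, U, u, v⟩ := ih
    obtain ⟨a, a1, b, b1, n⟩ := Finset.one_lt_card.1 (show 1 < (D k \ U).card by
      have := Finset.le_card_sdiff U (D k); have := h k; omega)
    rw [Finset.mem_sdiff] at a1 b1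
    refine ⟨fun x => if x ∈ U then g x else x = a, insert a (insert b U),
      (Finset.card_insert_le _ _).trans (by have := Finset.card_insert_le b U; omega),
      fun e he w => ?_⟩
    rcases Nat.lt_succ_iff_lt_or_eq.1 he with he | rfl
    · obtain ⟨x, x1, x2, x3⟩ := v e he w
      exact ⟨x, x1, by simp [x2], by simp [x2, x3]⟩
    · cases w
      exacts [⟨b, b1.1, by simp, by simp [b1.2, n.symm]⟩, ⟨a, a1.1, by simp, by simp [a1.2]⟩]

lemma split {β : Type} [Primcodable β] {A : β → ℕ → ℕ → ℕ → Prop}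
    (hA : ComputablePred fun z : (β × ℕ × ℕ) × ℕ => A z.1.1 z.1.2.1 z.1.2.2 z.2)
    (m : ∀ l e s t x, s ≤ t → A l e s x → A l e t x) :
    ∃ u : β × ℕ → ℕ, Computable u ∧ ∀ l y, ∀ e < y, ∀ s < y, ∀ T : Finset ℕ,
      T.card = 2 * e + 2 → (∀ x ∈ T, x < s ∧ A l e s x) → ∀ v, ∃ a < s, A l e s a ∧ (u (l, y)).testBit a = v := by
  have f := @Computable.fst
  have s := @Computable.snd
  have g : Computable fun z : (((β × ℕ) × ℕ) × ℕ) × ℕ => (z.1.1.1.1, z.1.2, z.2) :=
    (f.comp (f.comp (f.comp f))).pair ((s.comp f).pair s)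
  have a : ComputablePred fun z : ((((β × ℕ) × ℕ) × ℕ) × ℕ) × ℕ =>
      A z.1.1.1.1.1 z.1.1.2 z.1.2 z.2 := cp hA ((g.comp f).pair s)
  have t : ComputablePred fun z : ((((β × ℕ) × ℕ) × ℕ) × ℕ) × ℕ =>
      z.1.1.1.2.testBit z.2 = true :=
    cp (p := fun q : ℕ × ℕ => q.1.testBit q.2 = true) Orc.testBit_prim.computablePred
      ((s.comp (f.comp (f.comp f))).pair s)
  obtain ⟨u, u1, u2⟩ := csel (P := fun (b : β × ℕ) (u : ℕ) => ∀ e < b.2, ∀ s < b.2,
      2 * e + 2 ≤ ((List.range s).filter (A b.1 e s ·)).length →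
        (∃ a < s, A b.1 e s a ∧ u.testBit a = true) ∧ ∃ a < s, A b.1 e s a ∧ ¬ u.testBit a = true)
    (cball (s.comp f) (cball (s.comp (f.comp f)) (cimp (cle (ad (ml (Computable.const 2)
      (s.comp f)) (Computable.const 2)) (Computable.list_length.comp
        (cfilter (Primrec.list_range.to_comp.comp s) a)))
      (cand (cbex s (cand a t)) (cbex s (cand a t.not)))))) (by
    rintro ⟨l, y⟩
    have c : ∀ e s, ((List.range s).filter (A l e s ·)).length =
        ((Finset.range s).filter (A l e s ·)).card := fun _ _ => rfl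
    obtain ⟨g, U, -, h⟩ := two (fun e => if h : ∃ s, 2 * e + 2 ≤ ((Finset.range s).filter
      (A l e s ·)).card then (Finset.range (Nat.find h)).filter (A l e (Nat.find h) ·)
      else Finset.range (2 * e + 2)) (fun e => by
        split_ifs with h
        exacts [Nat.find_spec h, by simp]) y
    refine ⟨Nat.ofBits fun i : Fin y => g i, fun e he s hs k => ?_⟩
    have z : ∀ v, ∃ a < s, A l e s a ∧ (Nat.ofBits fun i : Fin y => g i).testBit a = v := fun v => by
      obtain ⟨x, x1, -, x2⟩ := h e he v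
      rw [dif_pos ⟨s, c e s ▸ k⟩, Finset.mem_filter, Finset.mem_range] at x1
      have := Nat.find_min' (p := fun s => 2 * e + 2 ≤ ((Finset.range s).filter
        (A l e s ·)).card) ⟨s, c e s ▸ k⟩ (c e s ▸ k)
      exact ⟨x, by omega, m _ _ _ _ _ this x1.2, by
        rwa [Nat.testBit_ofBits_lt _ _ (show x < y from (x1.1.trans_le this).trans hs)]⟩
    exact ⟨z true, by simpa using z false⟩)
  refine ⟨u, u1, fun l y e he s hs T k1 k2 v => ?_⟩
  have k := k1 ▸ Finset.card_le_card (t := (Finset.range s).filter (A l e s ·)) fun x hx =>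
    Finset.mem_filter.2 ⟨Finset.mem_range.2 (k2 x hx).1, (k2 x hx).2⟩
  cases v
  exacts [by simpa using (u2 (l, y) e he s hs k).2, (u2 (l, y) e he s hs k).1]

lemma cm_tt {F : List ℕ × ℕ → ℕ} {b : ℕ → ℕ} (hF : Computable F) (hb : Computable b) :
    Cm fun p q => q = fun z => F (pre p (b z), z) := by
  have a : Computable fun z : List ℕ × ℕ × ℕ => z.2.1 := Computable.fst.comp Computable.snd
  refine ⟨_, Op.mk' (CeAlg.cs (cand (ceq (Computable.list_length.comp Computable.fst) (hb.comp a))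
    (ceq (Computable.snd.comp Computable.snd) (hF.comp (Computable.fst.pair a)))))
    fun _ _ => Iff.rfl, ?_⟩
  rintro p _ rfl n y
  simp

lemma jock : ∃ K : (ℕ → ℕ) → ℕ → ℕ, (Cm fun p q => q = K p) ∧ ∀ p, Bin (K p) ∧ ∀ e q m j,
    Out e p q → {x | q x = 1}.Infinite →
      ¬ ∀ x y, m ≤ x → x < y → q x = 1 → q y = 1 → K p (Nat.pair x y) = j := by
  have f := @Computable.fst
  have s := @Computable.snd
  obtain ⟨B, b, e⟩ := sig_nf (CeAlg.w_sig (α := ℕ × ℕ) f s)
  have i : Computable fun z : ((List ℕ × ℕ × ℕ) × ℕ) × ℕ => z.1.1.2.1 := f.comp (s.comp (f.comp f))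
  have x : Computable fun z : ((List ℕ × ℕ × ℕ) × ℕ) × ℕ => z.1.2 := s.comp f
  obtain ⟨u, u1, u2⟩ := split (A := fun (l : List ℕ) e s x => ∃ w < s, e.unpair.2 ≤ x ∧
      B ((e.unpair.1, Encodable.encode (l.take w.unpair.1, x, 1)), w.unpair.2))
    (cbex (s.comp (s.comp f)) (cand (cle (u2.comp i) x) (cp b (((u1.comp i).pair
      (Computable.encode.comp ((Primrec.list_take.to_comp.comp (u1.comp s)
        (f.comp (f.comp f))).pair (x.pair (Computable.const 1))))).pair (u2.comp s)))))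
    fun _ _ _ _ _ h ⟨w, a, b⟩ => ⟨w, a.trans_le h, b⟩
  refine ⟨_, cm_tt (F := fun z => if (u (z.1, z.2.unpair.2)).testBit z.2.unpair.1 = true then 1
    else 0) (cite (cp (p := fun q : ℕ × ℕ => q.1.testBit q.2 = true)
      Orc.testBit_prim.computablePred ((u1.comp (f.pair (Arith.u2.comp s))).pair
        (Arith.u1.comp s))) (Computable.const 1) (Computable.const 0)) Arith.u2,
    fun p => ⟨fun n => by dsimp only; split_ifs <;> simp, fun c q m j o h k => ?_⟩⟩
  obtain ⟨T, T1, T2⟩ := (h.sdiff (Set.finite_lt_nat m)).exists_subset_card_eq (2 * c.pair m + 2)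
  have t : ∀ x ∈ T, ∃ w : ℕ, B ((c, Encodable.encode (pre p w.unpair.1, x, 1)), w.unpair.2) :=
    fun x hx => by
    obtain ⟨a, a1⟩ := (o x 1).2 (T1 hx).1.symm
    obtain ⟨r, r1⟩ := (e (c, _)).1 a1
    exact ⟨a.pair r, by simpa using r1⟩
  choose! w hw using t
  obtain ⟨r, r1⟩ : ∃ r, ∀ x ∈ T, x < r ∧ w x < r := ⟨T.sup (fun x => x + w x) + 1, fun x hx => by
    have := Finset.le_sup (f := fun x => x + w x) hx; omega⟩
  obtain ⟨y, y1, y2⟩ := h.exists_gt (r + c.pair m)
  have z : ∀ w < r, (pre p y).take w.unpair.1 = pre p w.unpair.1 := fun w a =>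
    pre_take p (by have := w.unpair_left_le; omega)
  have v := u2 (pre p y) y (c.pair m) (by omega) r (by omega) T T2 fun x hx => ⟨(r1 x hx).1,
    w x, (r1 x hx).2, by simpa using (T1 hx).2, by simpa [z _ (r1 x hx).2] using hw x hx⟩
  have : ∀ v : Bool, (if v = true then 1 else 0) = j := fun a => by
    obtain ⟨x, x1, ⟨d, d1, d2, d3⟩, x2⟩ := v a
    simp only [Nat.unpair_pair, z d d1] at d2 d3
    simpa [x2] using k x y d2 (by omega) ((o x 1).1 ⟨_, (e (c, _)).2 ⟨_, d3⟩⟩).symm y1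
  simpa using (this true).trans (this false).symm

lemma Op.one {α : Type} [Primcodable α] {f : α → ℕ} (hf : Computable f) (c : ℕ) :
    Op fun p a => c = p (f a) := Op.val hf (Computable.const c)

theorem result : Red (prod NON LLPO) RT := by
  obtain ⟨K, k1, k2⟩ := jock
  have f := @Computable.fst
  have s := @Computable.snd
  have k := fun {α : Type} [Primcodable α] (c : ℕ) => Computable.const (α := α) c
  let C : (ℕ → ℕ) → ℕ → ℕ := fun p z =>
    if ∃ n < z.unpair.2, z.unpair.1 ≤ n ∧ od p n = 1 then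
      if ∃ n < z.unpair.2, n % 2 = 0 ∧ od p n = 1 then 1 else 0 else K p z
  have hC : Cm fun p q => q = C p := by
    have g : ComputablePred fun z : (List ℕ × ℕ) × ℕ => z.1.1.getD (4 * z.2 + 2) 0 = 1 :=
      ceq ((Primrec.list_getD 0).to_comp.comp (f.comp f) (ad (ml (k 4) s) (k 2))) (k 1)
    have a : ComputablePred fun z : List ℕ × ℕ =>
        ∃ n < z.2.unpair.2, z.2.unpair.1 ≤ n ∧ z.1.getD (4 * n + 2) 0 = 1 :=
      cbex (u2.comp s) (cand (cle (u1.comp (s.comp f)) s) g)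
    have b : ComputablePred fun z : List ℕ × ℕ =>
        ∃ n < z.2.unpair.2, n % 2 = 0 ∧ z.1.getD (4 * n + 2) 0 = 1 :=
      cbex (u2.comp s) (cand (ceq (md s 2) (k 0)) g)
    refine (((Cm.ix Computable.id).jn k1).comp (cm_tt (cite a (cite b (k 1) (k 0)) ((Primrec.list_getD 0).to_comp.comp f (ad (ml (k 2) s) (k 1))))
      (ad (ml (k 4) Computable.id) (k 2)))).mono ?_
    rintro p _ rfl
    refine ⟨_, rfl, funext fun z => ?_⟩
    have a : ∀ n < z.unpair.2, (pre (join (fun n => p (id n)) (K p)) (4 * id z + 2)).getD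
        (4 * n + 2) 0 = od p n := fun n h => by
      rw [pre_get _ (by have := z.unpair_right_le; simp only [id]; omega), join, if_pos (by omega),
        show (4 * n + 2) / 2 = 2 * n + 1 by omega]
      rfl
    have b : (pre (join (fun n => p (id n)) (K p)) (4 * id z + 2)).getD (2 * z + 1) 0 = K p z := by
      rw [pre_get _ (by simp only [id]; omega), join, if_neg (by omega),
        show (2 * z + 1) / 2 = z by omega]
    exact if_congr (exists_congr fun n => and_congr_right fun h => by rw [a n h])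
      (if_congr (exists_congr fun n => and_congr_right fun h => by rw [a n h]) rfl rfl) b.symm
  have g1 : Op fun t (z : (ℕ × ℕ) × ℕ) => z.1.2 + z.2 % 2 = 1 ∧ 1 = t (8 * z.2 + 4) :=
    (Op.cp (ceq (ad (s.comp f) (md s 2)) (k 1))).and (Op.one (ad (ml (k 8) s) (k 4)) 1)
  have g2 : Op fun t (z : (ℕ × ℕ) × ℕ) => z.2.unpair.1 < z.2.unpair.2 ∧
      1 = t (4 * z.2.unpair.1 + 2) ∧ 1 = t (4 * z.2.unpair.2 + 2) ∧
        (∀ n < z.2.unpair.2, 0 = t (8 * n + 4)) ∧ z.1.2 = t (2 * z.2 + 1) :=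
    (Op.cp (clt (u1.comp s) (u2.comp s))).and ((Op.one (ad (ml (k 4) (u1.comp s)) (k 2)) 1).and
      ((Op.one (ad (ml (k 4) (u2.comp s)) (k 2)) 1).and ((Op.ball (Op.one (ad (ml (k 8) s) (k 4)) 0)
        (u2.comp s)).and (Op.val (ad (ml (k 2) s) (k 1)) (s.comp f)))))
  refine red hC (Cm.od.join (((Cm.ix Computable.id).jn (hC.pre Cm.ev)).comp
    ⟨_, g1.exd.or g2.exd, fun _ _ h => h⟩)) fun p ⟨_, ⟨p1, _⟩, p2, p3, _⟩ => ⟨_, rfl,
      ramsey fun z => ?_, fun q ⟨_, q1, q2, j, q3⟩ => ?_⟩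
  · have := (k2 p).1 z
    simp only [C]
    split_ifs <;> simp [this]
  have j1 : j ≤ 1 := by
    obtain ⟨x, x1, -⟩ := q2.exists_gt 0
    obtain ⟨y, y1, y2⟩ := q2.exists_gt x
    exact q3 x y y2 x1 y1 ▸ ‹Bin (C p)› _
  obtain ⟨i, i1, i2, i3, m, i4⟩ : ∃ i ≤ 1, (∀ n, od p n = 1 → i + n % 2 = 1) ∧
      ((∃ n, od p n = 1) ∨ i = j) ∧ ∃ m, ∀ n, od p n = 1 → n < m := by
    by_cases h : ∃ n, od p n = 1
    · obtain ⟨n, h⟩ := h
      exact ⟨1 - n % 2, by omega, fun m u => by rw [p3 m n u h]; omega, Or.inl ⟨n, h⟩, n + 1,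
        fun m u => by rw [p3 m n u h]; omega⟩
    · exact ⟨j, j1, fun n u => (h ⟨n, u⟩).elim, Or.inr rfl, 0, fun n u => (h ⟨n, u⟩).elim⟩
  have t1 : ∀ n, join (fun n => join p q (id n)) (C (ev (join p q))) (8 * n + 4) = od p n :=
    fun n => by simp [join, od, show (8 * n + 4) % 2 = 0 by omega, show (8 * n + 4) / 2 % 2 = 0 by
      omega, show (8 * n + 4) / 2 / 2 = 2 * n + 1 by omega]
  have t2 : ∀ n, join (fun n => join p q (id n)) (C (ev (join p q))) (4 * n + 2) = q n :=
    fun n => by rw [join, if_pos (by omega), id, join, if_neg (by omega),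
      show (4 * n + 2) / 2 / 2 = n by omega]
  have t3 : ∀ n, join (fun n => join p q (id n)) (C (ev (join p q))) (2 * n + 1) = C p n :=
    fun n => by simp [join, show (2 * n + 1) / 2 = n by omega]
  refine ⟨_, ⟨_, fun _ => i, rfl, ⟨_, rfl, fun _ y => ?_⟩, rfl⟩, ?_, ?_⟩
  · simp only [t1, t2, t3]
    refine ⟨?_, ?_⟩
    · rintro (⟨n, a, b⟩ | ⟨z, a, b, c, d, e⟩)
      · have := i2 n b.symm
        omega
      rw [e, ← z.pair_unpair, q3 _ _ a b.symm c.symm]
      refine i3.elim (fun ⟨n, h⟩ => ?_) Eq.symm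
      have l : z.unpair.2 ≤ n := not_lt.1 fun l => by simpa [h] using d n l
      obtain ⟨y, y1, y2⟩ := q2.exists_gt n
      have := i2 n h
      rw [← q3 _ y (by omega) b.symm y1]
      simp only [C, Nat.unpair_pair]
      rw [if_pos ⟨n, y2, by omega, h⟩]
      split_ifs with v
      · obtain ⟨n', -, v, w⟩ := v
        have := i2 n' w
        omega
      · by_contra w
        exact v ⟨n, y2, by omega, h⟩
    · rintro rfl
      by_cases h : ∃ n, od p n = 1
      · exact Or.inl (h.imp fun n h => ⟨i2 n h, h.symm⟩)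
      obtain ⟨a, a1, -⟩ := q2.exists_gt 0
      obtain ⟨b, b1, b2⟩ := q2.exists_gt a
      refine Or.inr ⟨a.pair b, ?_⟩
      simp only [Nat.unpair_pair]
      exact ⟨b2, a1.symm, b1.symm, fun n _ => by_contra fun w => h ⟨n, by have := p2 n; omega⟩,
        (i3.resolve_left h).trans (q3 _ _ b2 a1 b1).symm⟩
  · simp only [ev_join, od_join]
    refine ⟨p1, q1, fun ⟨e, h⟩ => ?_⟩
    obtain ⟨c, v⟩ := ((Cm.out e).pre Cm.ev).idx
    refine (k2 p).2 c q m j (v p q h) q2 fun x y a b u w => ?_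
    rw [← q3 x y b u w]
    simp only [C, Nat.unpair_pair]
    exact (if_neg fun ⟨n, _, l, h⟩ => by have := i4 n h; omega).symm
  · simp only [od_join]
    exact ⟨p2, p3, fun _ => i1, fun n => by_contra fun w : od p (2 * n + i) ≠ 0 => by
      have := i2 (2 * n + i) (by have := p2 (2 * n + i); omega); omega⟩

end Pool.Agent.Results.MP_743c94_lc.Yes
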